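import Mathlib

set_option autoImplicit false

namespace Pool.Agent.H640H

/-- `S` is closed in the profinite topology. -/
def Sep (S : Set ℤ) : Prop := ∀ n, n ∉ S → ∃ m : ℤ, 0 < m ∧ ∀ y ∈ S, ¬ m ∣ y - n

theorem Sep.union {S T : Set ℤ} (hS : Sep S) (hT : Sep T) : Sep (S ∪ T) := by
  intro n hn
  obtain ⟨m, hm, h1⟩ := hS n (fun h => hn (Or.inl h))
  obtain ⟨k, hk, h2⟩ := hT n (fun h => hn (Or.inr h))
  refine ⟨m * k, mul_pos hm hk, ?_⟩
  rintro y (hy | hy) hd
  · exact h1 y hy ((Dvd.intro _ rfl).trans hd)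
  · exact h2 y hy ((Dvd.intro_left _ rfl).trans hd)

theorem sep_empty : Sep ∅ := fun n _ => ⟨1, one_pos, fun y hy => absurd hy (Set.notMem_empty y)⟩

theorem Sep.scale {S : Set ℤ} (hS : Sep S) (a m : ℤ) (hm : 0 < m) :
    Sep ((fun s => a + m * s) '' S) := by
  intro n hn
  by_cases h : m ∣ n - a
  · obtain ⟨k, hk⟩ := h
    have hkS : k ∉ S := fun h => hn ⟨k, h, by simp only; linarith⟩
    obtain ⟨q, hq, h1⟩ := hS k hkS
    refine ⟨m * q, mul_pos hm hq, ?_⟩
    rintro y ⟨s, hs, rfl⟩ hd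
    refine h1 s hs ?_
    have h2 : a + m * s - n = m * (s - k) := by linarith [mul_sub m s k]
    simp only at hd
    rw [h2] at hd
    exact (mul_dvd_mul_iff_left hm.ne').1 hd
  · refine ⟨m, hm, ?_⟩
    rintro y ⟨s, hs, rfl⟩ hd
    apply h
    simp only at hd
    have h2 : n - a = m * s - (a + m * s - n) := by ring
    rw [h2]
    exact dvd_sub (Dvd.intro _ rfl) hd

/-- The pairs `(y, x)` with `x ^ 2 = 3 * y ^ 2 + 13` starting from a given one. -/
def st (y x : ℤ) : ℕ → ℤ × ℤ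
  | 0 => (y, x)
  | n + 1 => (2 * (st y x n).1 + (st y x n).2, 3 * (st y x n).1 + 2 * (st y x n).2)

def a (n : ℕ) : ℤ := (st 1 4 n).1
def a' (n : ℕ) : ℤ := (st 1 4 n).2
def b (n : ℕ) : ℤ := (st 2 5 n).1
def b' (n : ℕ) : ℤ := (st 2 5 n).2

theorem a_succ (n : ℕ) : a (n + 1) = 2 * a n + a' n := rfl
theorem a'_succ (n : ℕ) : a' (n + 1) = 3 * a n + 2 * a' n := rfl
theorem b_succ (n : ℕ) : b (n + 1) = 2 * b n + b' n := rfl
theorem b'_succ (n : ℕ) : b' (n + 1) = 3 * b n + 2 * b' n := rfl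
theorem a_zero : a 0 = 1 := rfl
theorem a'_zero : a' 0 = 4 := rfl
theorem b_zero : b 0 = 2 := rfl
theorem b'_zero : b' 0 = 5 := rfl

theorem a_rec (n : ℕ) : a (n + 2) = 4 * a (n + 1) - a n := by
  have h1 := a_succ (n + 1)
  have h2 := a'_succ n
  have h3 := a_succ n
  have h4 : a (n + 2) = a (n + 1 + 1) := rfl
  linarith

theorem b_rec (n : ℕ) : b (n + 2) = 4 * b (n + 1) - b n := by
  have h1 := b_succ (n + 1)
  have h2 := b'_succ n
  have h3 := b_succ n
  have h4 : b (n + 2) = b (n + 1 + 1) := rfl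
  linarith

theorem inter (n : ℕ) : 0 < a n ∧ a n < b n ∧ b n < a (n + 1) ∧ 0 < a' n ∧ a' n < b' n ∧
    3 * b n + 2 * b' n < 2 * (2 * a' n + 3 * a n) + 3 * (2 * a n + a' n) := by
  induction n with
  | zero => simp [a_succ, a_zero, a'_zero, b_zero, b'_zero]
  | succ n ih =>
    obtain ⟨h1, h2, h3, h4, h5, h6⟩ := ih
    rw [a_succ] at h3
    have e1 := a_succ n
    have e2 := a'_succ n
    have e3 := b_succ n
    have e4 := b'_succ n
    have e5 := a_succ (n + 1)
    refine ⟨by linarith, by linarith, ?_, by linarith, by linarith, ?_⟩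
    · rw [e5, e1, e2, e3]
      linarith
    · rw [e1, e2, e3, e4]
      linarith

theorem sq_a (n : ℕ) : a' n ^ 2 = 3 * a n ^ 2 + 13 := by
  induction n with
  | zero => simp [a_zero, a'_zero]
  | succ n ih => rw [a_succ, a'_succ]; nlinarith

theorem sq_b (n : ℕ) : b' n ^ 2 = 3 * b n ^ 2 + 13 := by
  induction n with
  | zero => simp [b_zero, b'_zero]
  | succ n ih => rw [b_succ, b'_succ]; nlinarith

theorem pell : ∀ (k : ℕ) (y x : ℤ), 0 ≤ y → y < k → 0 ≤ x → x ^ 2 = 3 * y ^ 2 + 13 →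
    ∃ n, (y = a n ∧ x = a' n) ∨ (y = b n ∧ x = b' n) := by
  intro k
  induction k with
  | zero => intro y x h1 h2; simp at h2; omega
  | succ k ih =>
    intro y x h1 h2 h3 h4
    rcases lt_or_ge y 4 with h5 | h5
    · have hx : x < 8 := by nlinarith
      interval_cases y <;> interval_cases x <;> simp at h4
      · exact ⟨0, Or.inl ⟨rfl, rfl⟩⟩
      · exact ⟨0, Or.inr ⟨rfl, rfl⟩⟩
    · have h6 : x < 2 * y := by nlinarith
      have h7 : y < x := by nlinarith
      have h8 : 3 * y < 2 * x := by nlinarith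
      obtain ⟨n, ⟨hn1, hn2⟩ | ⟨hn1, hn2⟩⟩ := ih (2 * y - x) (2 * x - 3 * y) (by linarith)
        (by push_cast at h2; linarith) (by linarith) (by nlinarith)
      · exact ⟨n + 1, Or.inl ⟨by rw [a_succ]; linarith, by rw [a'_succ]; linarith⟩⟩
      · exact ⟨n + 1, Or.inr ⟨by rw [b_succ]; linarith, by rw [b'_succ]; linarith⟩⟩

/-- The sequence `..., -23, -6, -1, 2, 9, 34, ...`. -/
def e : ℤ → ℤ
  | Int.ofNat 0 => -1
  | Int.ofNat (n + 1) => b n
  | Int.negSucc n => -a (n + 1)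

theorem e_succ (n : ℕ) : e ((n : ℤ) + 1) = b n := rfl

theorem e_neg (n : ℕ) : e (-(n : ℤ)) = -a n := by
  cases n with
  | zero => rfl
  | succ n => rfl

theorem cases_int (i : ℤ) : (∃ n : ℕ, i = n + 1) ∨ ∃ n : ℕ, i = -(n : ℤ) := by
  rcases lt_or_ge 0 i with h | h
  · exact Or.inl ⟨(i - 1).toNat, by omega⟩
  · exact Or.inr ⟨(-i).toNat, by omega⟩

theorem e_rec (i : ℤ) : e (i + 1) = 4 * e i - e (i - 1) := by
  rcases cases_int i with ⟨n, rfl⟩ | ⟨n, rfl⟩
  · cases n with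
    | zero => decide
    | succ n =>
      have h1 : ((n + 1 : ℕ) : ℤ) + 1 + 1 = ((n + 2 : ℕ) : ℤ) + 1 := by push_cast; ring
      have h2 : ((n + 1 : ℕ) : ℤ) + 1 - 1 = ((n : ℕ) : ℤ) + 1 := by push_cast; ring
      rw [h1, h2, e_succ, e_succ, e_succ]
      exact b_rec n
  · cases n with
    | zero => decide
    | succ n =>
      have h1 : -((n + 1 : ℕ) : ℤ) + 1 = -((n : ℕ) : ℤ) := by push_cast; ring
      have h2 : -((n + 1 : ℕ) : ℤ) - 1 = -((n + 2 : ℕ) : ℤ) := by push_cast; ring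
      rw [h1, h2, e_neg, e_neg, e_neg]
      have := a_rec n
      linarith

theorem sq_e (i : ℤ) : ∃ x, x ^ 2 = 3 * e i ^ 2 + 13 := by
  rcases cases_int i with ⟨n, rfl⟩ | ⟨n, rfl⟩
  · exact ⟨b' n, by rw [e_succ, sq_b]⟩
  · exact ⟨a' n, by rw [e_neg, sq_a]; ring⟩

theorem mem_of_sq {y x : ℤ} (h : x ^ 2 = 3 * y ^ 2 + 13) : ∃ i, y = e i ∨ y = -e i := by
  obtain ⟨n, ⟨h1, -⟩ | ⟨h1, -⟩⟩ := pell (|y|.toNat + 1) |y| |x| (abs_nonneg _)
    (by have := abs_nonneg y; push_cast; omega) (abs_nonneg _) (by rw [sq_abs, sq_abs]; exact h)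
  · refine ⟨-(n : ℤ), ?_⟩
    rw [e_neg, ← h1]
    rcases abs_choice y with h2 | h2 <;> rw [h2] <;> simp
  · refine ⟨(n : ℤ) + 1, ?_⟩
    rw [e_succ, ← h1]
    rcases abs_choice y with h2 | h2 <;> rw [h2] <;> simp

theorem strictMono_a : StrictMono a := strictMono_nat_of_lt_succ fun n => by
  have := inter n; linarith [this.2.1, this.2.2.1]

theorem lt_cross (m n : ℕ) : a m ≠ b n := by
  intro h
  rcases le_or_gt m n with h1 | h1
  · have h2 := strictMono_a.monotone h1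
    have := (inter n).2.1
    omega
  · have h2 := strictMono_a.monotone (show n + 1 ≤ m from h1)
    have := (inter n).2.2.1
    omega

theorem strictMono_b : StrictMono b := strictMono_nat_of_lt_succ fun n => by
  have h1 := inter n
  have h2 := inter (n + 1)
  linarith [h1.2.2.1, h2.2.1]

theorem e_inj {i j : ℤ} (h : e i = e j ∨ e i = -e j) : i = j ∧ e i = e j := by
  rcases cases_int i with ⟨m, rfl⟩ | ⟨m, rfl⟩ <;> rcases cases_int j with ⟨n, rfl⟩ | ⟨n, rfl⟩
  · rw [e_succ, e_succ] at *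
    have h1 := inter m
    have h2 := inter n
    rcases h with h | h
    · exact ⟨by rw [strictMono_b.injective h], h⟩
    · exact absurd h (by intro h; linarith [h1.1, h1.2.1, h2.1, h2.2.1])
  · rw [e_succ, e_neg] at *
    have h1 := inter m
    have h2 := inter n
    rcases h with h | h
    · exact absurd h (by intro h; linarith [h1.1, h1.2.1, h2.1])
    · exact absurd (show a n = b m by linarith) (lt_cross _ _)
  · rw [e_succ, e_neg] at *
    have h1 := inter m
    have h2 := inter n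
    rcases h with h | h
    · exact absurd h (by intro h; linarith [h1.1, h2.1, h2.2.1])
    · exact absurd (show a m = b n by linarith) (lt_cross _ _)
  · rw [e_neg, e_neg] at *
    have h1 := inter m
    have h2 := inter n
    rcases h with h | h
    · exact ⟨by rw [strictMono_a.injective (show a m = a n by linarith)], h⟩
    · exact absurd h (by intro h; linarith [h1.1, h2.1])

theorem e_ne_zero (i : ℤ) : e i ≠ 0 := by
  intro h
  obtain ⟨x, hx⟩ := sq_e i
  rw [h] at hx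
  have h1 : |x| ^ 2 = 13 := by rw [sq_abs]; linarith
  have h2 : |x| < 4 := by nlinarith [abs_nonneg x]
  have h3 := abs_nonneg x
  interval_cases |x| <;> omega

/-- The values of a pair of functions on a ladder. -/
def L : Set ℤ := {y | ∃ i, y = 1 + e i ∨ y = 1 - e i}

theorem sep_L : Sep L := by
  intro n hn
  have hA : 0 < 3 * (n - 1) ^ 2 + 13 := by positivity
  refine ⟨(3 * (n - 1) ^ 2 + 13) ^ 2, by positivity, ?_⟩
  intro y hy hd
  apply hn
  have hy2 : ∃ x, x ^ 2 = 3 * (y - 1) ^ 2 + 13 := by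
    obtain ⟨i, rfl | rfl⟩ := hy
    · obtain ⟨x, hx⟩ := sq_e i
      exact ⟨x, by rw [hx]; ring⟩
    · obtain ⟨x, hx⟩ := sq_e i
      exact ⟨x, by rw [hx]; ring⟩
  obtain ⟨x, hx⟩ := hy2
  set A := 3 * (n - 1) ^ 2 + 13 with hAdef
  have h1 : A ^ 2 ∣ x ^ 2 - A := by
    have : x ^ 2 - A = (y - n) * (3 * (y + n - 2)) := by rw [hx, hAdef]; ring
    rw [this]
    exact hd.mul_right _
  obtain ⟨k, hk⟩ := h1
  have h2 : A * (1 + A * k) = x ^ 2 := by linarith [show A * (1 + A * k) = A + A ^ 2 * k by ring]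
  have hc : IsCoprime A (1 + A * k) := ⟨-k, 1, by ring⟩
  obtain ⟨a0, ha | ha⟩ := Int.sq_of_isCoprime hc h2
  · obtain ⟨i, hi | hi⟩ := mem_of_sq (y := n - 1) (x := a0) (by rw [← ha])
    · exact ⟨i, Or.inl (by linarith)⟩
    · exact ⟨i, Or.inr (by linarith)⟩
  · nlinarith [sq_nonneg a0]

end Pool.Agent.H640H
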