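import Pool.Agent.H640H.Greedy

set_option autoImplicit false

namespace Pool.Agent.H640H

open SimpleGraph

section

variable {V : Type*} [Countable V] [Infinite V] (G : SimpleGraph V)

theorem structure_exists (huniq : ∀ v w w', G.Adj v w → G.Adj v w' → w = w') :
    ∃ (g : ℕ → V), (∀ v, ∃ k, g k = v ∨ G.Adj (g k) v) ∧ Function.Injective g ∧
      ∀ k k', ¬ G.Adj (g k) (g k') := by
  obtain ⟨c, hc⟩ := exists_injective_nat V
  set R : Set V := {v | ∀ w, G.Adj v w → c v < c w} with hR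
  have hcov : ∀ v, v ∈ R ∨ ∃ w ∈ R, G.Adj w v := by
    intro v
    by_cases h : v ∈ R
    · exact Or.inl h
    · right
      rw [hR, Set.mem_setOf_eq] at h
      push Not at h
      obtain ⟨w, hw, hcw⟩ := h
      have hne : c w ≠ c v := fun h => hw.ne' (hc h)
      refine ⟨w, fun u hu => ?_, hw.symm⟩
      rw [← huniq w v u hw.symm hu]
      omega
  have hinf : R.Infinite := by
    intro hfin
    have h1 : (⋃ r ∈ R, {v | G.Adj r v}).Finite := by
      refine hfin.biUnion fun r _ => ?_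
      refine Set.Subsingleton.finite fun v hv w hw => huniq r v w hv hw
    refine Set.infinite_univ (α := V) ((hfin.union h1).subset fun v _ => ?_)
    rcases hcov v with h | ⟨w, hw, hvw⟩
    · exact Or.inl h
    · exact Or.inr (Set.mem_biUnion hw hvw)
  have : Infinite R := hinf.to_subtype
  obtain ⟨f⟩ : Nonempty (ℕ ≃ R) := inferInstance
  refine ⟨fun k => (f k : V), fun v => ?_, fun k k' h => f.injective (Subtype.ext h), ?_⟩
  · rcases hcov v with h | ⟨w, hw, hvw⟩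
    · exact ⟨f.symm ⟨v, h⟩, Or.inl (by simp)⟩
    · exact ⟨f.symm ⟨w, hw⟩, Or.inr (by simpa using hvw)⟩
  · intro k k' h
    have h1 : c (f k) < c (f k') := (f k).2 _ h
    have h2 : c (f k') < c (f k) := (f k').2 _ h.symm
    omega

/-- `v` has the position `(k, s)`. -/
def Pos (g : ℕ → V) (v : V) (k : ℕ) (s : Bool) : Prop :=
  (s = false ∧ g k = v) ∨ (s = true ∧ G.Adj (g k) v)

open Classical in
theorem main (huniq : ∀ v w w', G.Adj v w → G.Adj v w' → w = w') :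
    ∃ φ : V × ℤ → ℤ, Function.Bijective φ ∧
      (∀ v i, (∀ w, ¬ G.Adj v w) → 2 * φ (v, i) = φ (v, i + 1) + φ (v, i - 1)) ∧
      ∀ v w i, G.Adj v w → 3 * φ (v, i) = φ (v, i + 1) + φ (v, i - 1) + φ (w, i) := by
  obtain ⟨g, hg1, hg2, hg3⟩ := structure_exists G huniq
  have hex : ∀ v, ∃ p : ℕ × Bool, Pos G g v p.1 p.2 := by
    intro v
    obtain ⟨k, h | h⟩ := hg1 v
    · exact ⟨(k, false), Or.inl ⟨rfl, h⟩⟩
    · exact ⟨(k, true), Or.inr ⟨rfl, h⟩⟩
  choose p hp using hex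
  have huq : ∀ v k s, Pos G g v k s → p v = (k, s) := by
    intro v k s h
    have h1 := hp v
    rcases h with ⟨rfl, h⟩ | ⟨rfl, h⟩ <;> rcases h1 with ⟨h2, h1⟩ | ⟨h2, h1⟩
    · exact Prod.ext (hg2 (h1.trans h.symm)) h2
    · rw [← h] at h1
      exact absurd h1 (hg3 _ _)
    · rw [← h1] at h
      exact absurd h (hg3 _ _)
    · exact Prod.ext (hg2 (huniq v _ _ h1.symm h.symm)) h2
  set T : ℕ → Bool := fun k => decide (∃ w, G.Adj (g k) w) with hT
  have hTs : ∀ v k s, Pos G g v k s → s = true → T k = true := by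
    rintro v k s (⟨rfl, h⟩ | ⟨rfl, h⟩) hs
    · cases hs
    · exact decide_eq_true ⟨v, h⟩
  have hinj : ∀ v v' k s, Pos G g v k s → Pos G g v' k s → v = v' := by
    rintro v v' k s (⟨rfl, h⟩ | ⟨rfl, h⟩) (⟨h2, h'⟩ | ⟨h2, h'⟩)
    · exact h.symm.trans h'
    · cases h2
    · cases h2
    · exact huniq _ _ _ h h'
  refine ⟨fun x => lab T (p x.1).1 (p x.1).2 x.2, ⟨?_, ?_⟩, ?_, ?_⟩
  · rintro ⟨v, i⟩ ⟨w, j⟩ h
    simp only at h
    obtain ⟨h1, h2, rfl⟩ := lab_inj T (hTs _ _ _ (hp v)) (hTs _ _ _ (hp w)) h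
    have h3 := hp w
    rw [← h1, ← h2] at h3
    rw [hinj v w _ _ (hp v) h3]
  · intro y
    obtain ⟨k, s, i, h1, rfl⟩ := lab_surj T y
    cases s
    · refine ⟨(g k, i), ?_⟩
      simp only
      rw [huq (g k) k false (Or.inl ⟨rfl, rfl⟩)]
    · obtain ⟨w, hw⟩ := of_decide_eq_true (h1 rfl)
      refine ⟨(w, i), ?_⟩
      simp only
      rw [huq w k true (Or.inr ⟨rfl, hw⟩)]
  · intro v i hv
    simp only
    rcases hp v with ⟨h1, h2⟩ | ⟨h1, h2⟩
    · refine lab_zero T ?_ _ _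
      rw [hT]
      simp only [decide_eq_false_iff_not]
      rintro ⟨w, hw⟩
      rw [h2] at hw
      exact hv w hw
    · exact absurd h2.symm (hv _)
  · intro v w i hvw
    simp only
    obtain ⟨k, s, hk⟩ : ∃ k s, Pos G g v k s := ⟨_, _, hp v⟩
    have hw : Pos G g w k (!s) := by
      rcases hk with ⟨rfl, h⟩ | ⟨rfl, h⟩
      · exact Or.inr ⟨rfl, by rw [h]; exact hvw⟩
      · exact Or.inl ⟨rfl, huniq v _ _ h.symm hvw⟩
    rw [huq v k s hk, huq w k (!s) hw]
    refine lab_one T ?_ s i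
    rcases hk with ⟨rfl, h⟩ | ⟨rfl, h⟩
    · exact decide_eq_true ⟨w, by rw [h]; exact hvw⟩
    · exact decide_eq_true ⟨v, h⟩

end

end Pool.Agent.H640H
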