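import Pool.Agent.H640H.Base

set_option autoImplicit false

namespace Pool.Agent.H640H

/-- The values on a component of the product. -/
def B (t : Bool) : Set ℤ := if t = true then L else {y | ∃ i, y = 2 * i}

theorem zero_mem_B (t : Bool) : 0 ∈ B t := by
  cases t
  · exact ⟨0, by simp⟩
  · exact ⟨0, Or.inl (by decide)⟩

theorem one_notMem_B (t : Bool) : 1 ∉ B t := by
  cases t
  · rintro ⟨i, hi⟩
    omega
  · rintro ⟨i, hi | hi⟩
    · exact e_ne_zero i (by linarith)
    · exact e_ne_zero i (by linarith)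

theorem sep_B (t : Bool) : Sep (B t) := by
  cases t
  · intro n hn
    refine ⟨2, by norm_num, ?_⟩
    rintro y ⟨i, rfl⟩ ⟨k, hk⟩
    exact hn ⟨i - k, by linarith⟩
  · exact sep_L

/-- A closed proper subset of the integers. -/
structure State where
  S : Set ℤ
  sep : Sep S
  ne : S ≠ Set.univ

theorem State.exists_min (X : State) : ∃ n, n ∉ X.S ∧ ∀ k, k ∉ X.S → |n| ≤ |k| := by
  obtain ⟨n0, hn0⟩ := (Set.ne_univ_iff_exists_notMem _).1 X.ne
  have h : ∃ d : ℕ, ∃ n, n ∉ X.S ∧ |n| = d := ⟨n0.natAbs, n0, hn0, by simp⟩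
  classical
  obtain ⟨n, hn, hd⟩ := Nat.find_spec h
  refine ⟨n, hn, fun k hk => ?_⟩
  have := Nat.find_min' h ⟨k, hk, (Int.natCast_natAbs k).symm⟩
  rw [hd]
  have h2 : (k.natAbs : ℤ) = |k| := Int.natCast_natAbs k
  rw [← h2]
  exact_mod_cast this

noncomputable def State.n (X : State) : ℤ := Classical.choose X.exists_min

theorem State.n_spec (X : State) : X.n ∉ X.S ∧ ∀ k, k ∉ X.S → |X.n| ≤ |k| :=
  Classical.choose_spec X.exists_min

noncomputable def State.m (X : State) : ℤ := Classical.choose (X.sep X.n X.n_spec.1)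

theorem State.m_spec (X : State) : 0 < X.m ∧ ∀ y ∈ X.S, ¬ X.m ∣ y - X.n :=
  Classical.choose_spec (X.sep X.n X.n_spec.1)

/-- The new cell. -/
def State.cell (X : State) (t : Bool) : Set ℤ := (fun s => X.n + X.m * s) '' B t

theorem State.disj (X : State) (t : Bool) {y : ℤ} (h1 : y ∈ X.cell t) (h2 : y ∈ X.S) : False := by
  obtain ⟨s, -, rfl⟩ := h1
  exact X.m_spec.2 _ h2 ⟨s, by ring⟩

noncomputable def State.next (X : State) (t : Bool) : State where
  S := X.S ∪ X.cell t
  sep := X.sep.union ((sep_B t).scale _ _ X.m_spec.1)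
  ne := by
    intro h
    have h1 : X.n + X.m ∈ X.S ∪ X.cell t := by rw [h]; trivial
    rcases h1 with h1 | ⟨s, hs, h2⟩
    · exact X.m_spec.2 _ h1 ⟨1, by ring⟩
    · have h3 : X.m * s = X.m * 1 := by simp only at h2; linarith
      have h4 := mul_left_cancel₀ X.m_spec.1.ne' h3
      rw [h4] at hs
      exact one_notMem_B t hs

noncomputable def X (T : ℕ → Bool) : ℕ → State
  | 0 => ⟨∅, sep_empty, fun h => absurd (h ▸ Set.mem_univ (0 : ℤ)) (Set.notMem_empty _)⟩
  | k + 1 => (X T k).next (T k)

variable (T : ℕ → Bool)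

theorem sub_succ (k : ℕ) : (X T k).S ⊆ (X T (k + 1)).S := fun _ h => Or.inl h

theorem mono {j k : ℕ} (h : j ≤ k) : (X T j).S ⊆ (X T k).S :=
  monotone_nat_of_le_succ (f := fun k => (X T k).S) (sub_succ T) h

theorem cell_sub (k : ℕ) : (X T k).cell (T k) ⊆ (X T (k + 1)).S := fun _ h => Or.inr h

theorem cells_disj {j k : ℕ} {y : ℤ} (h1 : y ∈ (X T j).cell (T j)) (h2 : y ∈ (X T k).cell (T k)) :
    j = k := by
  rcases lt_trichotomy j k with h | h | h
  · exact ((X T k).disj _ h2 (mono T h (cell_sub T j h1))).elim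
  · exact h
  · exact ((X T j).disj _ h1 (mono T h (cell_sub T k h2))).elim

theorem n_mem (k : ℕ) : (X T k).n ∈ (X T k).cell (T k) := ⟨0, zero_mem_B _, by simp⟩

theorem cover (y : ℤ) : ∃ k, y ∈ (X T k).cell (T k) := by
  by_contra hc
  push Not at hc
  have h : ∀ k, y ∉ (X T k).S := by
    intro k
    induction k with
    | zero => exact Set.notMem_empty _
    | succ k ih =>
      rintro (h | h)
      · exact ih h
      · exact hc k h
  have hinj : Function.Injective fun k => (X T k).n := by
    intro j k hjk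
    have h1 := n_mem T j
    have h2 := n_mem T k
    simp only at hjk
    rw [hjk] at h1
    exact cells_disj T h1 h2
  have hfin : (Set.range fun k => (X T k).n).Finite := by
    refine (Set.finite_Icc (-|y|) |y|).subset ?_
    rintro _ ⟨k, rfl⟩
    have := (X T k).n_spec.2 y (h k)
    exact abs_le.1 this
  exact Set.infinite_range_of_injective hinj hfin

/-- The two functions on a ladder, and the function on a line. -/
def val (t s : Bool) (i : ℤ) : ℤ :=
  if t = true then (if s = true then 1 - e i else 1 + e i) else 2 * i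

theorem val_mem (t s : Bool) (i : ℤ) : val t s i ∈ B t := by
  cases t
  · exact ⟨i, rfl⟩
  · cases s
    · exact ⟨i, Or.inl rfl⟩
    · exact ⟨i, Or.inr rfl⟩

theorem exists_val {t : Bool} {y : ℤ} (h : y ∈ B t) : ∃ s i, (s = true → t = true) ∧
    val t s i = y := by
  cases t
  · obtain ⟨i, rfl⟩ := h
    exact ⟨false, i, by simp, rfl⟩
  · obtain ⟨i, rfl | rfl⟩ := h
    · exact ⟨false, i, by simp, rfl⟩
    · exact ⟨true, i, by simp, rfl⟩

theorem val_inj {t s s' : Bool} {i j : ℤ} (hs : s = true → t = true) (hs' : s' = true → t = true)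
    (h : val t s i = val t s' j) : s = s' ∧ i = j := by
  cases t
  · have h1 : s = false := by cases s <;> simp_all
    have h2 : s' = false := by cases s' <;> simp_all
    have h3 : 2 * i = 2 * j := h
    exact ⟨by rw [h1, h2], by omega⟩
  · cases s <;> cases s' <;> simp only [val, if_true, Bool.false_eq_true, if_false] at h
    · exact ⟨rfl, (e_inj (Or.inl (by linarith))).1⟩
    · have h1 := e_inj (i := i) (j := j) (Or.inr (by linarith))
      exact absurd (show e i = 0 by linarith [h1.2]) (e_ne_zero i)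
    · have h1 := e_inj (i := i) (j := j) (Or.inr (by linarith))
      exact absurd (show e i = 0 by linarith [h1.2]) (e_ne_zero i)
    · exact ⟨rfl, (e_inj (Or.inl (by linarith))).1⟩

/-- The labelling in coordinates. -/
noncomputable def lab (k : ℕ) (s : Bool) (i : ℤ) : ℤ := (X T k).n + (X T k).m * val (T k) s i

theorem lab_mem (k : ℕ) (s : Bool) (i : ℤ) : lab T k s i ∈ (X T k).cell (T k) :=
  ⟨_, val_mem _ s i, rfl⟩

theorem lab_inj {k k' : ℕ} {s s' : Bool} {i j : ℤ} (hs : s = true → T k = true)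
    (hs' : s' = true → T k' = true) (h : lab T k s i = lab T k' s' j) :
    k = k' ∧ s = s' ∧ i = j := by
  have h1 : k = k' := by
    have h2 := lab_mem T k s i
    rw [h] at h2
    exact cells_disj T h2 (lab_mem T k' s' j)
  subst h1
  refine ⟨rfl, val_inj hs hs' ?_⟩
  unfold lab at h
  exact mul_left_cancel₀ (X T k).m_spec.1.ne' (by linarith)

theorem lab_surj (y : ℤ) : ∃ k s i, (s = true → T k = true) ∧ lab T k s i = y := by
  obtain ⟨k, z, hz, rfl⟩ := cover T y
  obtain ⟨s, i, h1, rfl⟩ := exists_val hz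
  exact ⟨k, s, i, h1, rfl⟩

theorem lab_one {k : ℕ} (h : T k = true) (s : Bool) (i : ℤ) :
    3 * lab T k s i = lab T k s (i + 1) + lab T k s (i - 1) + lab T k (!s) i := by
  unfold lab
  rw [h]
  have := e_rec i
  cases s <;> simp only [val, if_true, Bool.false_eq_true, if_false, Bool.not_true,
    Bool.not_false] <;> rw [this] <;> ring

theorem lab_zero {k : ℕ} (h : T k = false) (s : Bool) (i : ℤ) :
    2 * lab T k s i = lab T k s (i + 1) + lab T k s (i - 1) := by
  unfold lab
  rw [h]
  simp only [val, Bool.false_eq_true, if_false]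
  ring

end Pool.Agent.H640H
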